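import Pool.Agent.H83.LI.Targets
import Pool.Agent.H24.GG.Plain
import Pool.Agent.H3.GW.Fin

/-!
# Theorem (H0) on windows in the form used for the filters (MP_c59857_nt)
-/

set_option autoImplicit false

namespace Pool.Agent.H24.RZ

open Finset Pool.Agent.H6.N4D Pool.Agent.H28.NW Pool.Agent.H83.LI

lemma sum_Ioc_add (n H : ℕ) (F : ℕ → ℝ) : ∑ m ∈ Ioc n (n + H), F m = ∑ h ∈ Icc 1 H, F (n + h) := by
  symm
  refine Finset.sum_nbij (fun h => n + h) ?_ ?_ ?_ (fun _ _ => rfl)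
  · intro h hh
    rw [mem_Icc] at hh
    rw [mem_Ioc]
    omega
  · intro h _ h' _ e
    have e' : n + h = n + h' := e
    omega
  · intro m hm
    rw [mem_coe, mem_Ioc] at hm
    exact ⟨m - n, by rw [mem_coe, mem_Icc]; omega, by show n + (m - n) = m; omega⟩

lemma ds_eq (lam : ℕ → ℝ) (R H n : ℕ) (b : ℕ → ℂ) (β : ℕ → ℝ) :
    (∑ m ∈ Ioc n (n + H), ‖(lam m : ℂ) - ∑ r ∈ range R,
      b r * ee (-(β r * n)) * ee (β r * m)‖ ^ 2) / H =
      ds (fun m => ((lam m : ℝ) : ℂ)) R H n b β := by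
  unfold ds
  rw [sum_Ioc_add]
  congr 1
  refine sum_congr rfl fun h _ => ?_
  congr 3
  refine sum_congr rfl fun r _ => ?_
  rw [mul_assoc, ← ee_add, Pool.Agent.H24.GG.ee_exp]
  congr 3
  push_cast
  ring

theorem pf_GHA (hH : Pool.Agent.H3.GW.W_GH0) : T_GHA := by
  obtain ⟨c, K, hc, hK, h⟩ := hH
  refine ⟨min c 1, K, lt_min hc one_pos, min_le_right _ _, fun R => ?_⟩
  obtain ⟨H₀, h⟩ := h R
  refine ⟨H₀ + 1, fun X H lam hH₀ hX hl b β hb => ?_⟩
  have h1 := h X H lam (by omega) hX hl (fun n r => b n r * ee (-(β n r * n))) β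
    (fun n r => by rw [norm_mul, norm_ee, mul_one]; exact hb n r)
  have hL : 0 ≤ X.L := by
    refine le_trans (mul_nonneg (Nat.cast_nonneg K) (Real.log_nonneg ?_)) hX
    exact_mod_cast (by omega : 1 ≤ H)
  refine lt_of_le_of_lt (mul_le_mul_of_nonneg_right (min_le_left c 1) hL) ?_
  refine lt_of_lt_of_le h1 (le_of_eq ?_)
  congr 1
  funext n
  exact ds_eq lam R H n (b n) (β n)

/-- theorem (H0) on windows -/
theorem aGHA : T_GHA := pf_GHA Pool.Agent.H3.GW.Fin.gh0w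

end Pool.Agent.H24.RZ
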