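import Pool.Agent.H24.WT.Fur

/-!
# A Lebesgue component in the local spectrum: the ergodic form on logarithmic windows
(MP_c59857_nt)
-/

set_option autoImplicit false

open MeasureTheory ProbabilityTheory Filter Topology Finset
open scoped ENNReal

namespace Pool.Agent.H24.RZ

open Pool.Agent.H89.MT (I1 X pt lavg QuasiGeneric z1)
open Pool.Agent.H83.W (S S_cont pt_succ)
open Pool.Agent.H24.EG
open Pool.Agent.H24.WT (QGW qgw_mp LL LL_eq sum_Icc_le)

/-- the finite form: in the mean over the windows of length `L` from `Y` to `Z`, the mean square of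
every combination of the `H + 1` shifts, with coefficients chosen after the window, of `l²` norm at
least `1`, is more than `c` -/
def RZw (c : ℝ) (f : ℕ → ℝ) : Prop := ∀ H : ℕ, ∃ L₀ K : ℕ, ∀ L Y Z : ℕ, L₀ ≤ L → 1 ≤ Y → Y ≤ Z →
  K * Real.log L ≤ Real.log ((Z : ℝ) / Y) →
  Real.log Z ^ (24 / 25 : ℝ) ≤ Real.log ((Z : ℝ) / Y) →
  ∀ a : ℕ → ℕ → ℂ, (∀ n, 1 ≤ ∑ h ∈ range (H + 1), ‖a n h‖ ^ 2) →
    c * Real.log ((Z : ℝ) / Y) < ∑ n ∈ Icc Y Z, 1 / (n : ℝ) * ((∑ m ∈ Icc 1 L,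
      ‖∑ h ∈ range (H + 1), a n h * (f (n + m + h) : ℂ)‖ ^ 2) / L)

/-- filters of `l²` norm one -/
abbrev Flt (H : ℕ) : Type := {b : ℕ → ℂ // ∑ h ∈ range (H + 1), ‖b h‖ ^ 2 = 1}

/-- the filter which is one at zero -/
def flt0 (H : ℕ) : Flt H := ⟨fun h => if h = 0 then 1 else 0, by
  rw [Finset.sum_eq_single_of_mem 0 (mem_range.2 (by omega))]
  · simp
  · intro h _ h0
    simp [h0]⟩

instance (H : ℕ) : Nonempty (Flt H) := ⟨flt0 H⟩

theorem flt_le {H : ℕ} (b : Flt H) {h : ℕ} (hh : h ∈ range (H + 1)) : ‖b.1 h‖ ≤ 1 := by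
  have h1 := single_le_sum (f := fun h => ‖b.1 h‖ ^ 2) (fun _ _ => sq_nonneg _) hh
  rw [b.2] at h1
  have h2 : ‖b.1 h‖ ^ 2 ≤ 1 ^ 2 := by simpa using h1
  exact (sq_le_sq₀ (norm_nonneg _) zero_le_one).1 h2

/-- the filtered point -/
noncomputable def fx (H : ℕ) (b : ℕ → ℂ) (x : X) (m : ℤ) : ℂ :=
  ∑ h ∈ range (H + 1), b h * ((x (m + h) : ℝ) : ℂ)

theorem norm_fx (H : ℕ) (b : Flt H) (x : X) (m : ℤ) : ‖fx H b.1 x m‖ ≤ H + 1 := by
  unfold fx
  refine (norm_sum_le _ _).trans ?_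
  have h1 : ∀ h ∈ range (H + 1), ‖b.1 h * ((x (m + h) : ℝ) : ℂ)‖ ≤ 1 := by
    intro h hh
    rw [norm_mul, Complex.norm_real, Real.norm_eq_abs]
    exact mul_le_one₀ (flt_le b hh) (abs_nonneg _) (abs_x x _)
  refine (Finset.sum_le_sum h1).trans ?_
  simp

/-- the mean square of the filtered point -/
noncomputable def pd (L H : ℕ) (x : X) (b : ℕ → ℂ) : ℝ :=
  (∑ m ∈ Icc 1 L, ‖fx H b x (m : ℤ)‖ ^ 2) / L

theorem pd_nonneg (L H : ℕ) (x : X) (b : ℕ → ℂ) : 0 ≤ pd L H x b := by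
  unfold pd; positivity

/-- the least mean square -/
noncomputable def PX (L H : ℕ) (x : X) : ℝ := ⨅ b : Flt H, pd L H x b.1

theorem bddP (L H : ℕ) (x : X) : BddBelow (Set.range fun b : Flt H => pd L H x b.1) :=
  ⟨0, by rintro y ⟨θ, rfl⟩; exact pd_nonneg L H _ _⟩

theorem PX_le (L H : ℕ) (x : X) (b : Flt H) : PX L H x ≤ pd L H x b.1 := ciInf_le (bddP L H x) b

theorem PX_nonneg (L H : ℕ) (x : X) : 0 ≤ PX L H x := le_ciInf fun _ => pd_nonneg L H _ _

theorem PX_le_one (L H : ℕ) (x : X) : PX L H x ≤ 1 := by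
  refine (PX_le L H x (flt0 H)).trans ?_
  unfold pd
  rcases Nat.eq_zero_or_pos L with h | h
  · subst h; simp
  · have hN : (0 : ℝ) < L := by exact_mod_cast h
    rw [div_le_one hN]
    have h1 : ∀ m ∈ Icc 1 L, ‖fx H (flt0 H).1 x (m : ℤ)‖ ^ 2 ≤ 1 := by
      intro m _
      have h2 : fx H (flt0 H).1 x (m : ℤ) = ((x (m : ℤ) : ℝ) : ℂ) := by
        unfold fx
        rw [Finset.sum_eq_single_of_mem 0 (mem_range.2 (by omega))]
        · simp [flt0]
        · intro h _ h0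
          simp [flt0, h0]
      rw [h2, Complex.norm_real, Real.norm_eq_abs]
      have := abs_x x (m : ℤ)
      have h3 := abs_nonneg (x (m : ℤ) : ℝ)
      nlinarith
    refine (Finset.sum_le_sum h1).trans ?_
    simp

/-- the distance of two points -/
noncomputable def dL (L H : ℕ) (x y : X) : ℝ :=
  (∑ m ∈ Icc 1 L, ∑ h ∈ range (H + 1), |(x ((m : ℤ) + h) : ℝ) - (y ((m : ℤ) + h) : ℝ)|) / L

theorem dL_comm (L H : ℕ) (x y : X) : dL L H x y = dL L H y x := by
  unfold dL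
  congr 1
  exact Finset.sum_congr rfl fun m _ => Finset.sum_congr rfl fun h _ => abs_sub_comm _ _

theorem pd_le (L H : ℕ) (x y : X) (b : Flt H) :
    pd L H x b.1 ≤ pd L H y b.1 + 2 * (H + 1) * dL L H x y := by
  unfold pd dL
  rw [← mul_div_assoc, ← add_div, Finset.mul_sum, ← Finset.sum_add_distrib]
  apply div_le_div_of_nonneg_right _ (by positivity)
  refine Finset.sum_le_sum fun m _ => ?_
  obtain ⟨a, ha⟩ : ∃ a : ℂ, a = fx H b.1 x (m : ℤ) := ⟨_, rfl⟩
  obtain ⟨a', ha'⟩ : ∃ a' : ℂ, a' = fx H b.1 y (m : ℤ) := ⟨_, rfl⟩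
  have h1 : ‖a‖ ≤ H + 1 := by rw [ha]; exact norm_fx H b x m
  have h2 : ‖a'‖ ≤ H + 1 := by rw [ha']; exact norm_fx H b y m
  have h3 : ‖a - a'‖ ≤ ∑ h ∈ range (H + 1), |(x ((m : ℤ) + h) : ℝ) - (y ((m : ℤ) + h) : ℝ)| := by
    rw [ha, ha']
    unfold fx
    rw [← Finset.sum_sub_distrib]
    refine (norm_sum_le _ _).trans (Finset.sum_le_sum fun h hh => ?_)
    rw [← mul_sub, norm_mul, ← Complex.ofReal_sub, Complex.norm_real, Real.norm_eq_abs]
    exact mul_le_of_le_one_left (abs_nonneg _) (flt_le b hh)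
  have h4 : ‖a‖ ≤ ‖a'‖ + ‖a - a'‖ := by
    have := norm_add_le a' (a - a')
    rwa [add_sub_cancel] at this
  rw [← ha, ← ha']
  obtain ⟨D, hD⟩ : ∃ D : ℝ, D = ∑ h ∈ range (H + 1), |(x ((m : ℤ) + h) : ℝ) -
    (y ((m : ℤ) + h) : ℝ)| := ⟨_, rfl⟩
  rw [← hD] at h3 ⊢
  have h5 := norm_nonneg a
  have h6 := norm_nonneg a'
  have h7 := norm_nonneg (a - a')
  nlinarith

theorem PX_cont (L H : ℕ) : Continuous (PX L H) := by
  have key : ∀ x y, PX L H x ≤ PX L H y + 2 * (H + 1) * dL L H x y := by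
    intro x y
    rw [← sub_le_iff_le_add]
    refine le_ciInf fun b => ?_
    rw [sub_le_iff_le_add]
    exact (PX_le L H x b).trans (pd_le L H x y b)
  rw [continuous_iff_continuousAt]
  intro x
  unfold ContinuousAt
  rw [tendsto_iff_dist_tendsto_zero]
  have hc : Continuous fun y : X => 2 * ((H : ℝ) + 1) * dL L H y x := by
    unfold dL
    refine Continuous.mul continuous_const
      (Continuous.div_const (continuous_finsetSum _ fun m _ =>
        continuous_finsetSum _ fun h _ => ?_) _)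
    exact ((continuous_subtype_val.comp (continuous_apply ((m : ℤ) + h))).sub
      continuous_const).abs
  have h0 : 2 * ((H : ℝ) + 1) * dL L H x x = 0 := by simp [dL]
  have hlim : Tendsto (fun y : X => 2 * ((H : ℝ) + 1) * dL L H y x) (𝓝 x) (𝓝 0) := by
    have := hc.tendsto x
    rwa [h0] at this
  refine squeeze_zero (fun y => dist_nonneg) (fun y => ?_) hlim
  rw [Real.dist_eq, abs_le]
  have h1 := key x y
  have h2 := key y x
  rw [dL_comm L H x y] at h1
  constructor <;> linarith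

theorem PX_anti (L : ℕ) (x : X) : Antitone fun H => PX L H x := by
  intro H H' hH
  refine le_ciInf fun b => ?_
  have hb : ∑ h ∈ range (H' + 1), ‖(fun h => if h ≤ H then b.1 h else 0) h‖ ^ 2 = 1 := by
    refine Eq.trans ?_ b.2
    symm
    refine Finset.sum_subset_zero_on_sdiff (Finset.range_mono (by omega)) ?_ ?_
    · intro h hh
      rw [Finset.mem_sdiff, mem_range, mem_range] at hh
      have : ¬ h ≤ H := by omega
      simp [this]
    · intro h hh
      rw [mem_range] at hh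
      have : h ≤ H := by omega
      simp only [if_pos this]
  refine (PX_le L H' x ⟨_, hb⟩).trans (le_of_eq ?_)
  unfold pd
  congr 1
  refine Finset.sum_congr rfl fun m _ => ?_
  congr 2
  unfold fx
  symm
  refine Finset.sum_subset_zero_on_sdiff (Finset.range_mono (by omega)) ?_ ?_
  · intro h hh
    rw [Finset.mem_sdiff, mem_range, mem_range] at hh
    have : ¬ h ≤ H := by omega
    simp only [if_neg this, zero_mul]
  · intro h hh
    rw [mem_range] at hh
    have : h ≤ H := by omega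
    simp only [if_pos this]

/-! ## components -/

section

variable (κ : Measure X) [IsProbabilityMeasure κ]

/-- the mean over the component -/
noncomputable def pg (H L : ℕ) (x : X) : ℝ := ∫ y, PX L H y ∂comp κ x

theorem pg_meas (H L : ℕ) : Measurable (pg κ H L) := by
  have h3 := StronglyMeasurable.integral_condExpKernel (μ := κ) (m := IS)
    (PX_cont L H).measurable.stronglyMeasurable
  exact (h3.mono IS_le).measurable

theorem pg_nonneg (H L : ℕ) (x : X) : 0 ≤ pg κ H L x := integral_nonneg fun y => PX_nonneg _ _ y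

theorem PX_int {ν : Measure X} [IsProbabilityMeasure ν] (L H : ℕ) : Integrable (PX L H) ν := by
  refine Integrable.of_bound (C := 1) (PX_cont L H).aestronglyMeasurable
    (Eventually.of_forall fun y => ?_)
  rw [Real.norm_eq_abs, abs_of_nonneg (PX_nonneg L H y)]
  exact PX_le_one L H y

theorem pg_le_one (H L : ℕ) (x : X) : pg κ H L x ≤ 1 := by
  have hP : IsProbabilityMeasure (comp κ x) := by unfold comp; infer_instance
  calc pg κ H L x ≤ ∫ _y, (1 : ℝ) ∂comp κ x := by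
        refine integral_mono_of_nonneg (Eventually.of_forall fun y => PX_nonneg _ _ y)
          (integrable_const _) (Eventually.of_forall fun y => PX_le_one _ _ y)
    _ = 1 := by simp

theorem pg_int (H L : ℕ) : ∫ x, pg κ H L x ∂κ = ∫ x, PX L H x ∂κ := by
  have h3 := condExp_ae_eq_integral_condExpKernel (μ := κ) IS_le (PX_int (ν := κ) L H)
  rw [← integral_condExp (μ := κ) (f := PX L H) IS_le]
  exact (integral_congr_ae h3).symm

theorem pg_anti (L : ℕ) (x : X) : Antitone fun H => pg κ H L x := by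
  intro H H' h
  have hP : IsProbabilityMeasure (comp κ x) := by unfold comp; infer_instance
  exact integral_mono_of_nonneg (Eventually.of_forall fun y => PX_nonneg _ _ y) (PX_int L H)
    (Eventually.of_forall fun y => PX_anti L y h)

/-- the largest mean -/
noncomputable def ps (H : ℕ) (x : X) : ℝ := ⨆ L : ℕ, pg κ H (L + 1) x

theorem ps_bdd (H : ℕ) (x : X) : BddAbove (Set.range fun L : ℕ => pg κ H (L + 1) x) :=
  ⟨1, by rintro _ ⟨L, rfl⟩; exact pg_le_one κ H _ x⟩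

theorem ps_meas (H : ℕ) : Measurable (ps κ H) := Measurable.iSup fun L => pg_meas κ H (L + 1)

theorem pg_le_ps (H L : ℕ) (hL : 0 < L) (x : X) : pg κ H L x ≤ ps κ H x := by
  have := le_ciSup (ps_bdd κ H x) (L - 1)
  simp only [Nat.sub_add_cancel hL] at this
  exact this

theorem ps_nonneg (H : ℕ) (x : X) : 0 ≤ ps κ H x :=
  (pg_nonneg κ H 1 x).trans (pg_le_ps κ H 1 one_pos x)

theorem ps_le_one (H : ℕ) (x : X) : ps κ H x ≤ 1 := ciSup_le fun _ => pg_le_one κ H _ x

theorem ps_anti (x : X) : Antitone fun H => ps κ H x := by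
  intro H H' h
  exact ciSup_le fun L => (pg_anti κ (L + 1) x h).trans (pg_le_ps κ H (L + 1) (Nat.succ_pos L) x)

/-- the lower bound for the squares of the distances -/
noncomputable def pi' (x : X) : ℝ := ⨅ H : ℕ, ps κ H x

theorem pi_bdd (x : X) : BddBelow (Set.range fun H : ℕ => ps κ H x) :=
  ⟨0, by rintro _ ⟨H, rfl⟩; exact ps_nonneg κ H x⟩

theorem pi_meas : Measurable (pi' κ) := Measurable.iInf fun H => ps_meas κ H

theorem pi_nonneg (x : X) : 0 ≤ pi' κ x := le_ciInf fun H => ps_nonneg κ H x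

theorem pi_le_one (x : X) : pi' κ x ≤ 1 := (ciInf_le (pi_bdd κ x) 0).trans (ps_le_one κ 0 x)

theorem pi_int {c : ℝ} (h : ∀ H : ℕ, ∃ L : ℕ, 0 < L ∧ c ≤ ∫ x, PX L H x ∂κ) :
    c ≤ ∫ x, pi' κ x ∂κ := by
  have hlim : Tendsto (fun H : ℕ => ∫ x, ps κ H x ∂κ) atTop (𝓝 (∫ x, pi' κ x ∂κ)) := by
    refine tendsto_integral_of_dominated_convergence (fun _ => 1) ?_ (integrable_const _) ?_ ?_
    · exact fun H => (ps_meas κ H).aestronglyMeasurable
    · intro H
      refine Eventually.of_forall fun x => ?_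
      rw [Real.norm_eq_abs, abs_of_nonneg (ps_nonneg κ H x)]
      exact ps_le_one κ H x
    · exact Eventually.of_forall fun x => tendsto_atTop_ciInf (ps_anti κ x) (pi_bdd κ x)
  refine ge_of_tendsto' hlim fun H => ?_
  obtain ⟨L, hL, hc⟩ := h H
  refine hc.trans ?_
  rw [← pg_int κ H L]
  refine integral_mono_of_nonneg (Eventually.of_forall fun x => pg_nonneg κ H L x) ?_
    (Eventually.of_forall fun x => pg_le_ps κ H L hL x)
  refine Integrable.of_bound (C := 1) (ps_meas κ H).aestronglyMeasurable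
    (Eventually.of_forall fun x => ?_)
  rw [Real.norm_eq_abs, abs_of_nonneg (ps_nonneg κ H x)]
  exact ps_le_one κ H x

end

/-- `∫ |∑ a h * y h|² dν ≥ d * ∑ |a h|²` for all finite sums: the spectral measure of the
coordinate `y 0` is at least `d` times Lebesgue measure. -/
def Leb (ν : Measure X) (d : ℝ) : Prop := ∀ (H : ℕ) (a : ℕ → ℂ),
  d * ∑ h ∈ range (H + 1), ‖a h‖ ^ 2 ≤
    ∫ y, ‖∑ h ∈ range (H + 1), a h * ((y (h : ℤ) : ℝ) : ℂ)‖ ^ 2 ∂ν

theorem int_PX_le {ν : Measure X} [IsProbabilityMeasure ν] (hS : MeasurePreserving S ν ν)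
    {L : ℕ} (hL : 0 < L) (H : ℕ) (b : Flt H) :
    ∫ y, PX L H y ∂ν ≤ ∫ y, ‖∑ h ∈ range (H + 1), b.1 h * ((y (h : ℤ) : ℝ) : ℂ)‖ ^ 2 ∂ν := by
  set g : X → ℝ := fun y => ‖∑ h ∈ range (H + 1), b.1 h * ((y (h : ℤ) : ℝ) : ℂ)‖ ^ 2 with hg
  have hfx : ∀ y, g y = ‖fx H b.1 y 0‖ ^ 2 := by
    intro y
    rw [hg]
    unfold fx
    simp only [zero_add]
  have hc : ∀ m : ℤ, Measurable fun y : X => ((y m : ℝ) : ℂ) := fun m =>
    Complex.measurable_ofReal.comp (measurable_subtype_coe.comp (measurable_pi_apply m))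
  have hgm : Measurable g :=
    ((Finset.measurable_fun_sum _ fun h _ => (hc _).const_mul _).norm).pow_const 2
  have hgb : ∀ y, ‖g y‖ ≤ ((H : ℝ) + 1) ^ 2 := by
    intro y
    rw [hfx, Real.norm_eq_abs, abs_of_nonneg (by positivity)]
    exact pow_le_pow_left₀ (norm_nonneg _) (norm_fx H b y _) 2
  have hgi : Integrable g ν :=
    Integrable.of_bound hgm.aestronglyMeasurable _ (Eventually.of_forall hgb)
  have hgh : ∀ h : ℕ, Integrable (fun y => g (S^[h] y)) ν := fun h =>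
    (hS.iterate h).integrable_comp_of_integrable hgi
  have hge : ∀ h : ℕ, ∫ y, g (S^[h] y) ∂ν = ∫ y, g y ∂ν := by
    intro h
    have hmp := hS.iterate h
    calc ∫ y, g (S^[h] y) ∂ν = ∫ y, g y ∂(ν.map (S^[h])) := by
          rw [integral_map hmp.measurable.aemeasurable hgm.aestronglyMeasurable]
      _ = ∫ y, g y ∂ν := by rw [hmp.map_eq]
  have h6 : ∀ y, PX L H y ≤ (∑ m ∈ Icc 1 L, g (S^[m] y)) / L := by
    intro y
    refine (PX_le L H y b).trans (le_of_eq ?_)
    unfold pd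
    congr 1
    refine Finset.sum_congr rfl fun m _ => ?_
    rw [hfx]
    congr 2
    unfold fx
    refine Finset.sum_congr rfl fun h _ => ?_
    rw [iter_S]
    congr 4
    ring
  have hL0 : (0 : ℝ) < L := by exact_mod_cast hL
  calc ∫ y, PX L H y ∂ν ≤ ∫ y, (∑ m ∈ Icc 1 L, g (S^[m] y)) / L ∂ν := by
        exact integral_mono (PX_int L H)
          ((integrable_finsetSum _ fun m _ => hgh m).div_const _) h6
    _ = ∫ y, g y ∂ν := by
        rw [integral_div, integral_finsetSum _ fun m _ => hgh m,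
          Finset.sum_congr rfl fun m _ => hge m, Finset.sum_const, Nat.card_Icc,
          Nat.add_sub_cancel, nsmul_eq_mul, mul_div_cancel_left₀ _ hL0.ne']

theorem leb_of {ν : Measure X} [IsProbabilityMeasure ν] {d : ℝ}
    (h : ∀ (H : ℕ) (b : Flt H),
      d ≤ ∫ y, ‖∑ h ∈ range (H + 1), b.1 h * ((y (h : ℤ) : ℝ) : ℂ)‖ ^ 2 ∂ν) : Leb ν d := by
  intro H a
  set s : ℝ := ∑ h ∈ range (H + 1), ‖a h‖ ^ 2 with hs
  have hs0 : 0 ≤ s := Finset.sum_nonneg fun h _ => sq_nonneg _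
  rcases hs0.eq_or_lt with h0 | h0
  · rw [← h0, mul_zero]
    exact integral_nonneg fun y => by positivity
  · set M : ℝ := Real.sqrt s with hM
    have hM0 : 0 < M := Real.sqrt_pos.2 h0
    have hM2 : M ^ 2 = s := Real.sq_sqrt hs0
    have hb : ∑ h ∈ range (H + 1), ‖(fun h => a h / M) h‖ ^ 2 = 1 := by
      have h1 : ∀ h, ‖a h / (M : ℂ)‖ ^ 2 = ‖a h‖ ^ 2 / s := by
        intro h
        rw [norm_div, Complex.norm_real, Real.norm_eq_abs, abs_of_pos hM0, div_pow, hM2]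
      simp only [h1]
      rw [← Finset.sum_div, ← hs, div_self h0.ne']
    have h1 := h H ⟨_, hb⟩
    have h2 : ∀ y : X, ‖∑ h ∈ range (H + 1), a h / (M : ℂ) * ((y (h : ℤ) : ℝ) : ℂ)‖ ^ 2 =
        ‖∑ h ∈ range (H + 1), a h * ((y (h : ℤ) : ℝ) : ℂ)‖ ^ 2 / s := by
      intro y
      have h3 : ∑ h ∈ range (H + 1), a h / (M : ℂ) * ((y (h : ℤ) : ℝ) : ℂ) =
          (∑ h ∈ range (H + 1), a h * ((y (h : ℤ) : ℝ) : ℂ)) / M := by
        rw [Finset.sum_div]
        exact Finset.sum_congr rfl fun h _ => by ring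
      rw [h3, norm_div, Complex.norm_real, Real.norm_eq_abs, abs_of_pos hM0, div_pow, hM2]
    simp only [h2] at h1
    rw [integral_div, le_div_iff₀ h0] at h1
    exact h1

theorem leb (κ : Measure X) [IsProbabilityMeasure κ] (hS : MeasurePreserving S κ κ) :
    ∀ᵐ x ∂κ, Leb (comp κ x) (pi' κ x) := by
  filter_upwards [comp_mp κ hS] with x hx
  have hP : IsProbabilityMeasure (comp κ x) := by unfold comp; infer_instance
  refine leb_of fun H b => ?_
  refine (ciInf_le (pi_bdd κ x) H).trans ?_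
  exact ciSup_le fun L => int_PX_le hx (Nat.succ_pos L) H b

/-- the mean of the least mean square, from the finite form -/
theorem le_int_PX {c : ℝ} (f : ℕ → ℝ) (hQ : RZw c f) (u : ℕ → I1)
    (hu : ∀ n, 0 < n → (u n : ℝ) = f n) (κ : Measure X) (hκ : QGW u κ) (H : ℕ) :
    ∃ L : ℕ, 0 < L ∧ c ≤ ∫ x, PX L H x ∂κ := by
  obtain ⟨L₀, K, h⟩ := hQ H
  refine ⟨L₀ + 1, Nat.succ_pos _, ?_⟩
  by_contra hc
  rw [not_le] at hc
  obtain ⟨Y, Z, hYZ, hL, hF⟩ := hκ.2
  set L := L₀ + 1 with hLd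
  set e := ∫ x, PX L H x ∂κ with he
  have h1 := hF ⟨PX L H, PX_cont L H⟩
  simp only [ContinuousMap.coe_mk] at h1
  have h2 : e < (e + c) / 2 := by linarith
  obtain ⟨k, ⟨⟨hk, hk0⟩, hk3⟩⟩ := ((h1.eventually_lt_const h2).and
    (hL.eventually_ge_atTop 1)).and (hL.eventually_ge_atTop (K * Real.log L)) |>.exists
  obtain ⟨hY, hYX, hbig⟩ := hYZ k
  have hk1 : 0 < Real.log ((Z k : ℝ) / Y k) := by linarith
  rw [div_lt_iff₀ hk1] at hk
  have h3 : ∀ n : ℕ, ∃ b : Flt H, pd L H (pt u n) b.1 < PX L H (pt u n) + (c - e) / 4 := fun n =>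
    exists_lt_of_ciInf_lt (lt_add_of_pos_right _ (by linarith))
  choose b hb using h3
  have h4 := h L (Y k) (Z k) (Nat.le_succ _) hY hYX hk3 hbig (fun n => (b n).1)
    (fun n => (b n).2.ge)
  have h5 : ∀ n : ℕ, (∑ m ∈ Icc 1 L, ‖∑ h ∈ range (H + 1), (b n).1 h *
      (f (n + m + h) : ℂ)‖ ^ 2) / L = pd L H (pt u n) (b n).1 := by
    intro n
    unfold pd
    congr 1
    refine Finset.sum_congr rfl fun m hm => ?_
    rw [mem_Icc] at hm
    congr 2
    unfold fx
    refine Finset.sum_congr rfl fun h _ => ?_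
    congr 2
    have e1 : ((pt u n ((m : ℤ) + h) : I1) : ℝ) = f (n + m + h) := by
      rw [← hu (n + m + h) (by omega)]
      unfold pt
      rw [if_pos (by omega)]
      congr 2
      omega
    exact e1.symm
  have h6 : ∑ n ∈ Icc (Y k) (Z k), (1 : ℝ) / n ≤ 1 + Real.log ((Z k : ℝ) / Y k) := by
    refine (sum_Icc_le (Y k) (Z k) hY hYX).trans ?_
    have hY0 : (0 : ℝ) < Y k := by exact_mod_cast hY
    have hZ0 : (0 : ℝ) < Z k := lt_of_lt_of_le hY0 (by exact_mod_cast hYX)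
    have h5 : (1 : ℝ) / Y k ≤ 1 := by
      rw [div_le_one hY0]
      exact_mod_cast hY
    rw [Real.log_div hZ0.ne' hY0.ne']
    linarith
  have h7 : ∑ n ∈ Icc (Y k) (Z k), 1 / (n : ℝ) * ((∑ m ∈ Icc 1 L, ‖∑ h ∈ range (H + 1),
      (b n).1 h * (f (n + m + h) : ℂ)‖ ^ 2) / L) ≤
      ∑ n ∈ Icc (Y k) (Z k), PX L H (pt u n) / n +
        (c - e) / 4 * ∑ n ∈ Icc (Y k) (Z k), (1 : ℝ) / n := by
    rw [mul_sum, ← sum_add_distrib]
    refine sum_le_sum fun n _ => ?_
    rw [h5 n, one_div_mul_eq_div, mul_one_div, ← add_div]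
    exact div_le_div_of_nonneg_right (hb n).le (Nat.cast_nonneg n)
  have h8 : (c - e) / 4 * ∑ n ∈ Icc (Y k) (Z k), (1 : ℝ) / n ≤
      (c - e) / 4 * (1 + Real.log ((Z k : ℝ) / Y k)) :=
    mul_le_mul_of_nonneg_left h6 (by linarith)
  nlinarith

/-- **The finite form gives the ergodic form**: for almost every component the spectral measure of
the coordinate is at least `G` times Lebesgue measure, where the mean of `G` is at least `c` -/
theorem erg_of {c : ℝ} (f : ℕ → ℝ) (hQ : RZw c f) (u : ℕ → I1)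
    (hu : ∀ n, 0 < n → (u n : ℝ) = f n)
    (κ : Measure X) [IsProbabilityMeasure κ] (hκ : QGW u κ) :
    ∃ G : X → ℝ, Measurable G ∧ (∀ x, 0 ≤ G x ∧ G x ≤ 1) ∧ c ≤ ∫ x, G x ∂κ ∧
      ∀ᵐ x ∂κ, Leb (comp κ x) (G x) :=
  ⟨pi' κ, pi_meas κ, fun x => ⟨pi_nonneg κ x, pi_le_one κ x⟩,
    pi_int κ fun H => le_int_PX f hQ u hu κ hκ H, leb κ (qgw_mp hκ)⟩

end Pool.Agent.H24.RZ
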