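import Pool.Agent.H24.RZ.Erg
import Pool.Agent.H83.LI.Targets
import Pool.Agent.H83.TR.Fin

/-!
# Filters of Liouville's function on windows: plain form (MP_c59857_nt)
-/

set_option autoImplicit false

namespace Pool.Agent.H24.RZ

open Finset Pool.Agent.H6.N4D Pool.Agent.H28.NW Pool.Agent.H24.WT Pool.Agent.H83.TR
  Pool.Agent.H83.LI

/-- plain form of the lower bound for the filtered sequences -/
theorem rz_plain (hQ : T_RZL) : ∃ c : ℝ, 0 < c ∧ ∃ K : ℕ, ∀ H : ℕ, ∃ L₀ : ℕ,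
    ∀ L Y N : ℕ, L₀ ≤ L → 1 ≤ Y → Y ≤ N → K * Real.log L ≤ Real.log ((N : ℝ) / Y) →
      Real.log N ^ (24 / 25 : ℝ) ≤ Real.log ((N : ℝ) / Y) →
      ∀ a : ℕ → ℕ → ℂ, (∀ n, 1 ≤ ∑ h ∈ range (H + 1), ‖a n h‖ ^ 2) →
        c * Real.log ((N : ℝ) / Y) < ∑ n ∈ Icc Y N, 1 / (n : ℝ) * ((∑ m ∈ Icc 1 L,
          ‖∑ h ∈ range (H + 1), a n h * (lioR (n + m + h) : ℂ)‖ ^ 2) / L) := by
  obtain ⟨c, K, hc, h⟩ := hQ
  refine ⟨c, hc, K, fun H => ?_⟩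
  obtain ⟨L₀, h⟩ := h H
  refine ⟨L₀, fun L Y N hL hY hYN hK hbig a ha => ?_⟩
  have h1 := h (wn Y N hY hYN hbig) L lioR a hL
    (by rw [LL_eq hY hYN] at hK; exact hK) lio_lioR ha
  have e1 : (wn Y N hY hYN hbig).L = Real.log ((N : ℝ) / Y) := (LL_eq hY hYN).symm
  rw [e1] at h1
  refine lt_of_lt_of_le h1 (le_of_eq ?_)
  unfold wlg
  refine sum_congr rfl fun n _ => ?_
  rw [one_div_mul_eq_div]

/-- the input of the ergodic form -/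
theorem rzw_of (hQ : T_RZL) : ∃ c : ℝ, 0 < c ∧ RZw c lioR := by
  obtain ⟨c, hc, K, h⟩ := rz_plain hQ
  refine ⟨c, hc, fun H => ?_⟩
  obtain ⟨L₀, h⟩ := h H
  exact ⟨L₀, K, h⟩

end Pool.Agent.H24.RZ
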